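import Pool.Agent.H44.DV.Targets

set_option autoImplicit false

namespace Pool.Agent.H19.DV.HG

open Pool.Agent.H44.DU

variable {n : ℕ}

lemma wd_succ (W : ℕ → Side n) (k : ℕ) : wd W (k + 1) = wd W k ++ [W k] := by
  simp [wd, List.range_succ]

lemma wd_length (W : ℕ → Side n) (k : ℕ) : (wd W k).length = k := by
  simp [wd]

lemma wd_add (W : ℕ → Side n) (i m : ℕ) :
    wd W (i + m) = wd W i ++ wd (fun j => W (i + j)) m := by
  induction m with
  | zero => simp [wd]
  | succ m ih => rw [← add_assoc, wd_succ, ih, wd_succ, List.append_assoc]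

lemma run_wd_le (S : Surf n) {s x : ℝ} {W : ℕ → Side n} {k m : ℕ} (h : S.Run s (wd W k) x)
    (hm : m ≤ k) : S.Run s (wd W m) x := by
  obtain ⟨d, rfl⟩ := Nat.exists_eq_add_of_le hm
  rw [wd_add, S.run_append] at h
  exact h.1

lemma ht_step (h2 : T_HT) (S : Surf n) {s x : ℝ} {W : ℕ → Side n} {i : ℕ}
    (h : S.Run s (wd W (i + 2)) x) :
    S.ht s (wd W (i + 1)) (W (i + 1)) x - S.ht s (wd W i) (W i) x =
      S.sg s (W i) (W (i + 1)) (S.g s (wd W (i + 1)) x) / S.A (wd W (i + 1)) ∧
    0 < S.sg s (W i) (W (i + 1)) (S.g s (wd W (i + 1)) x) := by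
  have e1 : wd W (i + 2) = wd W i ++ [W i] ++ [W (i + 1)] := by
    rw [wd_succ W (i + 1), wd_succ W i]
  rw [e1] at h
  obtain ⟨a1, a2, -⟩ := h2 n S s x (wd W i) (W i) (W (i + 1)) h
  rw [wd_succ W i]
  exact ⟨a1, a2⟩

/-- splitting of a word of a sequence -/
lemma wd_split {W : ℕ → Side n} {N : ℕ} {u v : List (Side n)} {r r' : Side n}
    (h : wd W N = u ++ r :: r' :: v) :
    u.length + 2 ≤ N ∧ r = W u.length ∧ r' = W (u.length + 1) ∧
      u ++ [r] = wd W (u.length + 1) := by
  have hl : N = u.length + (v.length + 2) := by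
    have := congrArg List.length h
    rw [wd_length] at this
    simp at this
    omega
  have h1 : wd W N = wd W u.length ++ wd (fun j => W (u.length + j)) (v.length + 2) := by
    rw [hl, wd_add]
  rw [h1] at h
  obtain ⟨h3, h4⟩ := List.append_inj h (wd_length _ _)
  have h5 : wd (fun j => W (u.length + j)) (v.length + 2) =
      W u.length :: W (u.length + 1) :: ((List.range v.length).map
        (fun j => W (u.length + (j + 2)))) := by
    simp only [wd, List.range_succ_eq_map, List.map_cons, List.map_map, add_zero]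
    simp [Function.comp_def]
  rw [h5] at h4
  simp only [List.cons.injEq] at h4
  refine ⟨by omega, h4.1.symm, h4.2.1.symm, ?_⟩
  rw [wd_succ, h3, h4.1]

theorem pf_HG (_h1 : T_PT) (h2 : T_HT) (h3 : T_GA) (h4 : D_HM) : D_HG := by
  intro n S K M L
  obtain ⟨c, hc, hG⟩ := h3 n S K
  refine ⟨⌈L * M / c⌉₊ * (3 * n + 1), ?_⟩
  intro s hs z W k hk hz hr hA
  have hM : 1 ≤ M := by
    have := hA 0 (Nat.zero_le _)
    simpa [wd, Surf.A] using this
  have hM0 : 0 < M := by linarith
  set x := xi s z with hx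
  have hmono : ∀ i j, i ≤ j → j ≤ k → 0 ≤ S.hj s W z i ∧ S.hj s W z i ≤ S.hj s W z j :=
    fun i j hij hj => h4 n S s z W i j hij hz (run_wd_le S hr (by omega))
  have claim : ∀ i, i + (3 * n + 1) ≤ k + 1 →
      S.hj s W z i + c / M ≤ S.hj s W z (i + (3 * n + 1) - 1) := by
    intro i hi
    have hrun := run_wd_le S hr hi
    rw [wd_add, S.run_append] at hrun
    obtain ⟨u, r, r', v, huv, hsg⟩ := hG s hs _ _ hrun.2.2 (by rw [wd_length])
    obtain ⟨e1, e2, e3, e4⟩ := wd_split huv
    have e5 : wd W i ++ (u ++ [r]) = wd W (i + u.length + 1) := by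
      rw [e4, add_assoc, wd_add W i (u.length + 1)]
    rw [← S.g_append, e5, e2, e3] at hsg
    have h5 := ht_step h2 S (i := i + u.length)
      (run_wd_le S hr (show i + u.length + 2 ≤ k + 1 by omega))
    have h6 : c / M ≤ S.sg s (W (i + u.length)) (W (i + u.length + 1))
        (S.g s (wd W (i + u.length + 1)) x) / S.A (wd W (i + u.length + 1)) := by
      have h7 : c ≤ S.sg s (W (i + u.length)) (W (i + u.length + 1))
        (S.g s (wd W (i + u.length + 1)) x) := hsg
      have h8 := hA (i + u.length + 1) (by omega)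
      have h9 := S.A_pos (wd W (i + u.length + 1))
      calc c / M ≤ c / S.A (wd W (i + u.length + 1)) :=
            div_le_div_of_nonneg_left hc.le h9 h8
        _ ≤ _ := div_le_div_of_nonneg_right h7 h9.le
    have h10 := (hmono i (i + u.length) (by omega) (by omega)).2
    have h11 := (hmono (i + u.length + 1) (i + (3 * n + 1) - 1) (by omega) (by omega)).2
    have h12 : S.hj s W z (i + u.length + 1) - S.hj s W z (i + u.length) =
        S.sg s (W (i + u.length)) (W (i + u.length + 1))
        (S.g s (wd W (i + u.length + 1)) x) / S.A (wd W (i + u.length + 1)) := by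
      simp only [Surf.hj]
      rw [← h5.1]
      ring
    linarith
  have iter : ∀ q : ℕ, ∀ k', k' ≤ k → q * (3 * n + 1) ≤ k' + 1 →
      (q : ℝ) * (c / M) ≤ S.hj s W z k' := by
    intro q
    induction q with
    | zero =>
      intro k' hk' _
      simp only [Nat.cast_zero, zero_mul]
      exact (hmono k' k' le_rfl hk').1
    | succ q ih =>
      intro k' hk' hq
      have e0 : (q + 1) * (3 * n + 1) = q * (3 * n + 1) + (3 * n + 1) := by ring
      rw [e0] at hq
      obtain ⟨i, hi⟩ : ∃ i, k' + 1 = i + (3 * n + 1) := ⟨k' + 1 - (3 * n + 1), by omega⟩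
      have h5 := claim i (by omega)
      have h6 : i + (3 * n + 1) - 1 = k' := by omega
      rw [h6] at h5
      have h7 := ih i (by omega) (by omega)
      push_cast
      linarith
  have h5 := iter ⌈L * M / c⌉₊ k le_rfl (by omega)
  refine le_trans ?_ h5
  have h6 : L * M / c ≤ (⌈L * M / c⌉₊ : ℝ) := Nat.le_ceil _
  have h7 : L = (L * M / c) * (c / M) := by field_simp
  calc L = (L * M / c) * (c / M) := h7
    _ ≤ _ := mul_le_mul_of_nonneg_right h6 (by positivity)

end Pool.Agent.H19.DV.HG
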