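import Pool.Agent.H44.DV.Targets

set_option autoImplicit false

namespace Pool.Agent.H19.DV

open Pool.Agent.H44.DU

variable {n : ℕ}

lemma wd_succ (W : ℕ → Side n) (k : ℕ) : wd W (k + 1) = wd W k ++ [W k] := by
  simp [wd, List.range_succ]

lemma wd_length (W : ℕ → Side n) (k : ℕ) : (wd W k).length = k := by
  simp [wd]

lemma wd_add (W : ℕ → Side n) (i m : ℕ) :
    wd W (i + m) = wd W i ++ wd (fun j => W (i + j)) m := by
  induction m with
  | zero => simp [wd]
  | succ m ih => rw [← add_assoc, wd_succ, ih, wd_succ, List.append_assoc]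

lemma run_wd_le (S : Surf n) {s x : ℝ} {W : ℕ → Side n} {k m : ℕ} (h : S.Run s (wd W k) x)
    (hm : m ≤ k) : S.Run s (wd W m) x := by
  obtain ⟨d, rfl⟩ := Nat.exists_eq_add_of_le hm
  rw [wd_add, S.run_append] at h
  exact h.1

lemma ht_step (h2 : T_HT) (S : Surf n) {s x : ℝ} {W : ℕ → Side n} {i : ℕ}
    (h : S.Run s (wd W (i + 2)) x) :
    S.ht s (wd W (i + 1)) (W (i + 1)) x - S.ht s (wd W i) (W i) x =
      S.sg s (W i) (W (i + 1)) (S.g s (wd W (i + 1)) x) / S.A (wd W (i + 1)) ∧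
    0 < S.sg s (W i) (W (i + 1)) (S.g s (wd W (i + 1)) x) := by
  have e1 : wd W (i + 2) = wd W i ++ [W i] ++ [W (i + 1)] := by
    rw [wd_succ W (i + 1), wd_succ W i]
  rw [e1] at h
  obtain ⟨a1, a2, -⟩ := h2 n S s x (wd W i) (W i) (W (i + 1)) h
  rw [wd_succ W i]
  exact ⟨a1, a2⟩

lemma hj_zero (h1 : T_PT) (S : Surf n) {s : ℝ} {z : ℂ} {W : ℕ → Side n}
    (hz : z ∈ openSegment ℝ (S.P (W 0)) (S.Q (W 0))) (h : S.Run s (wd W 1) (xi s z)) :
    S.hj s W z 0 = 0 := by
  have h3 : S.InJ s (W 0) (xi s z) := by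
    have : wd W 1 = [W 0] := by simp [wd]
    rw [this, S.run_single] at h
    exact h
  have h4 : xi s (S.P (W 0)) ≠ xi s (S.Q (W 0)) := (h3.1.trans h3.2).ne'
  have h5 := ((h1 n S s (W 0) h4).2.2.2.2.2 z hz).1
  have e0 : wd W 0 = [] := by simp [wd]
  rw [Surf.hj, Surf.ht, e0, S.g_nil, h5]
  simp [Surf.B, Surf.A]

theorem pf_HM (h1 : T_PT) (h2 : T_HT) : D_HM := by
  intro n S s z W i j hij hz hr
  have key : ∀ a b, a ≤ b → b ≤ j → S.hj s W z a ≤ S.hj s W z b := by
    intro a b hab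
    induction b, hab using Nat.le_induction with
    | base => intro _; exact le_rfl
    | succ b hab ih =>
      intro hb
      refine (ih (by omega)).trans ?_
      have h3 := ht_step h2 S (run_wd_le S hr (show b + 2 ≤ j + 1 by omega))
      have h4 : 0 < S.sg s (W b) (W (b + 1)) (S.g s (wd W (b + 1)) (xi s z)) /
          S.A (wd W (b + 1)) := div_pos h3.2 (S.A_pos _)
      simp only [Surf.hj]
      linarith [h3.1]
  have h0 := hj_zero h1 S hz (run_wd_le S hr (by omega))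
  refine ⟨?_, key i j hij le_rfl⟩
  rw [← h0]
  exact key 0 i (Nat.zero_le _) hij

end Pool.Agent.H19.DV
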