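import Pool.Agent.H44.DV.Targets

set_option autoImplicit false

namespace Pool.Agent.H19.DV

open Pool.Agent.H44.DU

lemma xi_cont (z : ℂ) : Continuous (fun s : ℝ => xi s z) := by
  unfold xi
  fun_prop

lemma lt_open (z w : ℂ) : IsOpen {s : ℝ | xi s z < xi s w} :=
  isOpen_lt (xi_cont z) (xi_cont w)

lemma lt_ord (z w : ℂ) : {s : ℝ | xi s z < xi s w}.OrdConnected := by
  constructor
  intro s1 h1 s3 h3 s2 h2
  simp only [Set.mem_ofPred_eq] at h1 h3 ⊢
  obtain ⟨a, b⟩ := h2
  simp only [xi] at *
  rcases le_total z.im w.im with h | h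
  · nlinarith
  · nlinarith

theorem pf_OC (h : D_RC) : D_OC := by
  intro n S z W k
  by_cases hg : ∀ j, j + 1 < k → (S.gl (W j)).1 = (W (j + 1)).1
  · have he : {s : ℝ | S.Run s (wd W k) (xi s z)} = ⋂ j ∈ Finset.range k,
        ({s : ℝ | xi s (S.dev (wd W j) (nx (W j))) < xi s z} ∩
          {s : ℝ | xi s z < xi s (S.dev (wd W j) (W j))}) := by
      ext s
      simp only [Set.mem_ofPred_eq, Set.mem_iInter, Finset.mem_range, Set.mem_inter_iff]
      rw [h n S s (xi s z) W k]
      constructor
      · intro h1 j hj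
        exact h1.2 j hj
      · intro h1
        exact ⟨hg, fun j hj => h1 j hj⟩
    rw [he]
    constructor
    · apply isOpen_biInter_finset
      intro j _
      exact (lt_open _ _).inter (lt_open _ _)
    · apply Set.ordConnected_iInter
      intro j
      apply Set.ordConnected_iInter
      intro _
      exact (lt_ord _ _).inter (lt_ord _ _)
  · have he : {s : ℝ | S.Run s (wd W k) (xi s z)} = ∅ := by
      ext s
      simp only [Set.mem_ofPred_eq, Set.mem_empty_iff_false, iff_false]
      rw [h n S s (xi s z) W k]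
      exact fun h1 => hg h1.1
    rw [he]
    exact ⟨isOpen_empty, Set.ordConnected_empty⟩

end Pool.Agent.H19.DV
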