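import Pool.Agent.H44.DV.Targets

set_option autoImplicit false

namespace Pool.Agent.H19.DV.PS

open Pool.Agent.H44.DU

theorem pf_PS (h1 : D_RC) (h2 : D_CP) (h3 : D_HG) (h4 : D_AM) (h5 : D_KP) (h6 : D_OC) :
    D_PS := by
  intro n S r z w C K hw hC hz t ht ε hε
  obtain ⟨htK, W, hW0, hFr, hrc⟩ := ht
  obtain ⟨D, hD, hAM⟩ := h4 n S K
  set x := xi t z with hx
  have hAj : ∀ j, S.A (wd W j) ≤ D / (2 * w) := by
    intro j
    have := hAM t htK W (x - w) (x + w) (by linarith) hFr j
    rw [le_div_iff₀ (by linarith)]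
    have e : x + w - (x - w) = 2 * w := by ring
    rwa [e] at this
  set L : ℝ := max (2 * C) (2 * C / ε) + 1 with hL
  have hL1 : 2 * C < L := lt_of_le_of_lt (le_max_left _ _) (lt_add_one _)
  have hL2 : 2 * C / ε < L := lt_of_le_of_lt (le_max_right _ _) (lt_add_one _)
  have hL0 : 0 < L := by linarith
  obtain ⟨k0, hk0⟩ := h3 n S (K + 1) (D / (2 * w)) L
  obtain ⟨k, hk, hrck⟩ := hrc k0
  obtain ⟨hopen, hord⟩ := h6 n S z W (k + 1)
  set O : Set ℝ := {s : ℝ | S.Run s (wd W (k + 1)) (xi s z)} with hO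
  have htO : t ∈ O := hFr (k + 1) x (by linarith) (by linarith)
  have hxk : S.lc t W k < x ∧ x < S.rc t W k :=
    ((h1 n S t x W (k + 1)).mp htO).2 k (Nat.lt_succ_self k)
  have hz' : z ∈ openSegment ℝ (S.P (W 0)) (S.Q (W 0)) := by rw [hW0]; exact hz
  have ha : ∀ s ∈ O, t < s → s ≤ t + 1 → L ≤ S.hj s W z k ∧ (s - t) * S.hj s W z k < C := by
    intro s hs hts hst
    have hsK : |s| ≤ K + 1 := by
      rw [abs_le] at htK ⊢
      constructor <;> linarith [htK.1, htK.2]
    have hLs := hk0 s hsK z W k hk hz' hs (fun j _ => hAj j)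
    refine ⟨hLs, ?_⟩
    obtain ⟨l, hl0, hl1, hl⟩ := h2 n S s t z W k hs
    have h7 : (1 - l) * S.rc t W k + l * S.lc t W k < S.rc t W k := by
      have : l * S.lc t W k < l * S.rc t W k :=
        mul_lt_mul_of_pos_left (hxk.1.trans hxk.2) hl0
      linarith
    rw [hl] at h7
    linarith
  have ha' : ∀ s ∈ O, t < s → s ≤ t + 1 → (s - t) * L < C := by
    intro s hs hts hst
    obtain ⟨h7, h8⟩ := ha s hs hts hst
    have : (s - t) * L ≤ (s - t) * S.hj s W z k :=
      mul_le_mul_of_nonneg_left h7 (by linarith)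
    linarith
  have hb : ∀ s ∈ O, s ≤ t + 1 := by
    intro s hs
    by_contra hcon
    push Not at hcon
    have h7 : t + 1 ∈ O := hord.out htO hs ⟨by linarith, hcon.le⟩
    have h8 := ha' (t + 1) h7 (by linarith) le_rfl
    have e : t + 1 - t = 1 := by ring
    rw [e, one_mul] at h8
    linarith
  have hub : ∀ s ∈ O, s ≤ t + C / L := by
    intro s hs
    rcases le_or_gt s t with h7 | h7
    · have : 0 < C / L := by positivity
      linarith
    · have h8 := ha' s hs h7 (hb s hs)
      have h9 : s - t < C / L := by rwa [lt_div_iff₀ hL0]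
      linarith
  have hbdd : BddAbove O := ⟨t + C / L, hub⟩
  set σ := sSup O with hσ
  have hσle : ∀ s ∈ O, s ≤ σ := fun s hs => le_csSup hbdd hs
  have hσub : σ ≤ t + C / L := csSup_le ⟨t, htO⟩ hub
  have hσO : σ ∉ O := by
    intro hmem
    obtain ⟨δ, hδ, hball⟩ := Metric.isOpen_iff.mp hopen σ hmem
    have : σ + δ / 2 ∈ O := by
      apply hball
      rw [Metric.mem_ball, Real.dist_eq]
      rw [show σ + δ / 2 - σ = δ / 2 by ring, abs_of_pos (by linarith)]
      linarith
    have := hσle _ this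
    linarith
  have htσ : t < σ := lt_of_le_of_ne (hσle t htO) (fun h => hσO (h ▸ htO))
  have hCL : C / L < ε := by
    rw [div_lt_iff₀ hL0]
    rw [div_lt_iff₀ hε] at hL2
    linarith
  have hCL1 : C / L < 1 := by
    rw [div_lt_one hL0]
    linarith
  refine ⟨σ, htσ, by linarith, ?_⟩
  intro t' ht1 ht2 hTh
  obtain ⟨-, V, hV0, hFrV, -⟩ := hTh
  have h7 : (t' - σ) * C < w * (σ - t) := by
    have h8 : t' - σ < w / C * (σ - t) := by linarith
    have h9 := mul_lt_mul_of_pos_right h8 hC
    have e : w / C * (σ - t) * C = w * (σ - t) := by field_simp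
    rwa [e] at h9
  -- a point s near the supremum
  obtain ⟨s, hs1, hs2, hs3⟩ : ∃ s, t < s ∧ s < σ ∧ (t' - s) * C < w * (s - t) := by
    have hcont : Continuous (fun s : ℝ => w * (s - t) - (t' - s) * C) := by fun_prop
    have hpos : {s : ℝ | 0 < w * (s - t) - (t' - s) * C} ∈ nhds σ :=
      (isOpen_lt continuous_const hcont).mem_nhds (by
        show 0 < w * (σ - t) - (t' - σ) * C
        linarith)
    obtain ⟨δ, hδ, hball⟩ := Metric.mem_nhds_iff.mp hpos
    refine ⟨max ((t + σ) / 2) (σ - δ / 2), ?_, ?_, ?_⟩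
    · exact lt_of_lt_of_le (by linarith) (le_max_left _ _)
    · exact max_lt (by linarith) (by linarith)
    · have hm : max ((t + σ) / 2) (σ - δ / 2) ∈ Metric.ball σ δ := by
        rw [Metric.mem_ball, Real.dist_eq, abs_lt]
        constructor
        · have := le_max_right ((t + σ) / 2) (σ - δ / 2)
          linarith
        · have : max ((t + σ) / 2) (σ - δ / 2) < σ := max_lt (by linarith) (by linarith)
          linarith
      have := hball hm
      simp only [Set.mem_ofPred_eq] at this
      linarith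
  have hsO : s ∈ O := by
    obtain ⟨o, ho, hso⟩ := exists_lt_of_lt_csSup ⟨t, htO⟩ hs2
    exact hord.out htO ho ⟨hs1.le, hso.le⟩
  obtain ⟨h8, h9⟩ := ha s hsO hs1 (hb s hsO)
  have hj0 : 0 < S.hj s W z k := lt_of_lt_of_le hL0 h8
  have h10 : |t' - s| * S.hj s W z k < w := by
    rw [abs_of_pos (by linarith)]
    have h11 : (t' - s) * C * S.hj s W z k < w * (s - t) * S.hj s W z k :=
      mul_lt_mul_of_pos_right hs3 hj0
    have h12 : w * ((s - t) * S.hj s W z k) < w * C := mul_lt_mul_of_pos_left h9 hw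
    have h13 : (t' - s) * S.hj s W z k * C < w * C := by
      calc (t' - s) * S.hj s W z k * C = (t' - s) * C * S.hj s W z k := by ring
        _ < w * (s - t) * S.hj s W z k := h11
        _ = w * ((s - t) * S.hj s W z k) := by ring
        _ < w * C := h12
    exact lt_of_mul_lt_mul_right h13 hC.le
  have hVW := h5 n S s t' w z W V k hw hz' hsO hFrV (by rw [hV0, hW0]) h10
  have hwd : wd V (k + 1) = wd W (k + 1) := by
    simp only [wd]
    apply List.map_congr_left
    intro j hj
    exact hVW j (by rw [List.mem_range] at hj; omega)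
  have ht'O : t' ∈ O := by
    have := hFrV (k + 1) (xi t' z) (by linarith) (by linarith)
    rw [hwd] at this
    exact this
  have := hσle t' ht'O
  linarith

end Pool.Agent.H19.DV.PS
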